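import Pool.Agent.R887.ImgI

/-!
The conjecture of Campana and Peternell for the varieties, of any dimension, which are dominated by
a variety with multi-valued rational maps of large degree from a fixed variety.
-/

set_option autoImplicit false

open FF Pool.Agent.W602.GT Pool.Agent.Y172 Pool.Agent.R887

/-- Let `X` and `X'` be normal complex projective varieties of dimension `n ≥ 1`, with generic points
`y` and `y'`, and `S` a finite set of prime divisors of `X'`. Suppose that for all `ε > 0` there is a
multi-valued rational map `X' ← X'' → X`, where the projection `p` to `X'` is generically finite and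
unramified over the prime divisors of `X'` which are not in `S`, and `f : X'' ⇢ X` is dominant, such
that the intersection number `(f^* H)^(n-k-1) (p^* H')^(k+1)` on `X''`, `H` and `H'` being hyperplane
sections of `X` and `X'`, is at most `ε deg f` (for instance the iterates `f` of a dominant rational
map `X ⇢ X` for which the `(n-k-1)`-th dynamical degree is smaller than the topological degree).

Let `X ⇢ R` be any dominant rational map, given by a homomorphism `π` of the function fields, onto a
normal projective variety, with generic point `w`, of any dimension `m > k`. Then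

(1) if `(R, Δ)` is a log canonical pair such that the pull backs of `K_R + Δ` to the varieties `X''`
are at most `K_X''` over the prime divisors of `X'` which are not in `S`, then the numerical
dimension of `K_R + Δ` is at most `k`: the positive intersection product of `k + 1` copies of
`K_R + Δ` and `m - k - 1` hyperplane sections is zero. If `A` is a `ℚ`-divisor on `R` such that
`K_R + Δ - A` is pseudo-effective, then the Iitaka dimension of `A` is at most `k`;

(2) if `R` has canonical singularities (for instance if `R` is smooth), the numerical dimension of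
`K_R` is at most `k`. If `A` is a `ℚ`-divisor on `R` such that `K_R - A` is pseudo-effective, then
the Iitaka dimension of `A` is at most `k`, and if the Kodaira dimension of `R` is at least `k`, it
is at least the Iitaka dimension of `A`. -/
theorem Pool.Agent.Results.MP_370cf3_ag.DominatedDecompositions.result
    {K K' : Type} [Field K] [Algebra ℂ K] [Field K'] [Algebra ℂ K'] {N N' n : ℕ}
    {y : Fin (N + 1) → K} {y' : Fin (N' + 1) → K'}
    (hy : NormalModel y) (hy' : NormalModel y') (hn : Algebra.trdeg ℂ K = n)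
    (hn' : Algebra.trdeg ℂ K' = n) (hn0 : 0 < n) {S : Set (Place ℂ K')} (hS : S.Finite)
    {F : Type} [Field F] [Algebra ℂ F] {m R k : ℕ} {w : Fin (R + 1) → F} (hw : NormalModel w)
    (hm : Algebra.trdeg ℂ F = m) (hk : k < m) (π : F →ₐ[ℂ] K) :
    (∀ Δ : Place ℂ F → ℚ, LogCanonical w m Δ →
      (∀ ε : ℝ, 0 < ε → ∃ (L : Type) (_ : Field L) (_ : Algebra ℂ L) (φ : K →ₐ[ℂ] L)
        (ψ : K' →ₐ[ℂ] L), FiniteDimensional ψ.fieldRange L ∧ UnramifiedOutside ψ y' S ∧
          MultiPullBackLe (φ.comp π) ψ w m Δ y' S ∧
          MultiDegreeLe φ ψ y y' (n - (k + 1)) (k + 1) ε) →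
      NumDimLt w m Δ (k + 1) ∧ ∀ A : Place ℂ F → ℚ, PseudoEffective w m (Δ - A) →
        ∀ l, IitakaGe w A l → l ≤ k) ∧
    (Canonical w m →
      (∀ ε : ℝ, 0 < ε → ∃ (L : Type) (_ : Field L) (_ : Algebra ℂ L) (φ : K →ₐ[ℂ] L)
        (ψ : K' →ₐ[ℂ] L), FiniteDimensional ψ.fieldRange L ∧ UnramifiedOutside ψ y' S ∧
          MultiDegreeLe φ ψ y y' (n - (k + 1)) (k + 1) ε) →
      NumDimLt w m 0 (k + 1) ∧ ∀ A : Place ℂ F → ℚ, PseudoEffective w m (-A) →
        (∀ l, IitakaGe w A l → l ≤ k) ∧
          (KodairaGe w m k → ∀ l, IitakaGe w A l → KodairaGe w m l)) := by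
  have key : ∀ Δ : Place ℂ F → ℚ, LogCanonical w m Δ →
      (∀ ε : ℝ, 0 < ε → ∃ (L : Type) (_ : Field L) (_ : Algebra ℂ L) (φ : K →ₐ[ℂ] L)
        (ψ : K' →ₐ[ℂ] L), FiniteDimensional ψ.fieldRange L ∧ UnramifiedOutside ψ y' S ∧
          MultiPullBackLe (φ.comp π) ψ w m Δ y' S ∧
          MultiDegreeLe φ ψ y y' (n - (k + 1)) (k + 1) ε) →
      NumDimLt w m Δ (k + 1) ∧ ∀ A : Place ℂ F → ℚ, PseudoEffective w m (Δ - A) →
        ∀ l, IitakaGe w A l → l ≤ k := by
    intro Δ hLC h
    have hnum := numdim_img hy hy' hn hn' hn0 hw hm hLC π (j := k + 1) hk hS h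
    refine ⟨hnum, fun A hA l hl => ?_⟩
    by_contra hc
    exact iitaka_lt hw hm hk hnum hA (hl.mono (by omega))
  refine ⟨key, fun hcan h => ?_⟩
  obtain ⟨h1, h2⟩ := key 0 hcan.lc fun ε hε => by
    obtain ⟨L, _, _, φ, ψ, h3, h4, h5⟩ := h ε hε
    exact ⟨L, _, _, φ, ψ, h3, h4, hcan.multi_img hy' hm hn' (φ.comp π) ψ h3 S, h5⟩
  refine ⟨h1, fun A hA => ?_⟩
  have hle := h2 A (by rwa [zero_sub])
  exact ⟨hle, fun hkod l hl => hkod.mono (hle l hl)⟩
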