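import Pool.Agent.R887.TrvJ

/-!
The decompositions `K_X ~ A + B` on varieties which receive finite multi-valued maps.
-/

set_option autoImplicit false

open FF Pool.Agent.W602.GT Pool.Agent.Y172 Pool.Agent.R887

/-- (1) Let `X'` be a normal complex projective variety of dimension `n ≥ 1`, with generic point
`y'`, and `S` a finite set of prime divisors of `X'`. There is a constant `C`, depending only on `X'`
and `S`, such that the following holds for all normal (for instance smooth) projective varieties
`X` of dimension `n`, with generic point `y`, of degree at most `d` (a general fibre of a map which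
is given by `n - 1` pencils and one pencil of hyperplane sections has at most `d` points). Let
`X' ← X'' → X` be a multi-valued map, where the projection `p` to `X'` is generically finite and
`f : X'' ⇢ X` is dominant (for instance, two finite morphisms), such that the prime divisors over
`X''` which `f` maps to prime divisors of `X`, with ramification index `e`, are mapped by `p` to
prime divisors `P'` of `X'`, with ramification index at most `e` if `P'` is not in `S` (for
instance, `p` is unramified over the prime divisors which are not in `S`), and such that the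
intersection number of `n - 1` pull backs by `f` of hyperplane sections of `X` and one pull back by
`p` of a hyperplane section of `X'` is at most `c deg f`. Let `A` be an effective `ℚ`-divisor on `X`
such that `K_X - A` is pseudo-effective, for instance `K_X ~ A + B` with `B` pseudo-effective. Then
the coefficients of `A` are at most `c C d`. In particular, `A = 0` if the coefficients of `A` are
integers and `c C d < 1`.

(2) If `X` has a self-correspondence of this kind with `X' = X`, `S = ∅` and `c < 1`, then `A = 0`
for all effective `ℚ`-divisors `A` on `X` such that `K_X - A` is pseudo-effective, and `K_X` is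
numerically trivial if there is such an `A`. -/
theorem Pool.Agent.Results.MP_370cf3_ag.EffectivePartBound.result :
    (∀ {K' : Type} [Field K'] [Algebra ℂ K'] {N' n : ℕ} {y' : Fin (N' + 1) → K'},
      NormalModel y' → Algebra.trdeg ℂ K' = n → 0 < n → ∀ {S : Set (Place ℂ K')}, S.Finite →
      ∃ C : ℝ, 0 ≤ C ∧ ∀ (K : Type) [Field K] [Algebra ℂ K] (N : ℕ) (y : Fin (N + 1) → K)
        (d : ℕ), NormalModel y → Algebra.trdeg ℂ K = n →
        (∀ u : Fin (n - 1) → K, (∀ a, IsPencil y (u a)) → ∀ v, IsPencil y v →
          degreeOver u (fun _ : Fin 1 => v) ≤ d) →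
        ∀ (L : Type) [Field L] [Algebra ℂ L] (φ : K →ₐ[ℂ] L) (ψ : K' →ₐ[ℂ] L),
        FiniteDimensional ψ.fieldRange L →
        (∀ P : Place ℂ K, IsPrimeDivisor y P → ∀ (Q : Place ℂ L) (e : ℕ), LiesOver φ Q P e →
          ∀ (P' : Place ℂ K') (e' : ℕ), LiesOver ψ Q P' e' →
            IsPrimeDivisor y' P' ∧ (P' ∉ S → e' ≤ e)) →
        ∀ c : ℝ, MultiDegreeLe φ ψ y y' (n - 1) 1 c →
        ∀ A : Place ℂ K → ℚ, Effective y A → PseudoEffective y n (-A) →
          (∀ P, IsPrimeDivisor y P → (A P : ℝ) ≤ c * C * d) ∧
          (Integral y A → c * C * d < 1 → ∀ P, IsPrimeDivisor y P → A P = 0)) ∧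
    ∀ {K L : Type} [Field K] [Algebra ℂ K] [Field L] [Algebra ℂ L] {N n : ℕ}
      {y : Fin (N + 1) → K}, NormalModel y → Algebra.trdeg ℂ K = n → 0 < n →
      ∀ (φ ψ : K →ₐ[ℂ] L), FiniteDimensional ψ.fieldRange L →
      (∀ P : Place ℂ K, IsPrimeDivisor y P → ∀ (Q : Place ℂ L) (e : ℕ), LiesOver φ Q P e →
        ∀ (P' : Place ℂ K) (e' : ℕ), LiesOver ψ Q P' e' → IsPrimeDivisor y P' ∧ e' ≤ e) →
      ∀ c : ℝ, MultiDegreeLe φ ψ y y (n - 1) 1 c → c < 1 →
      ∀ A : Place ℂ K → ℚ, Effective y A → PseudoEffective y n (-A) →
        (∀ P, IsPrimeDivisor y P → A P = 0) ∧ NumTrivialR y n 0 := by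
  refine ⟨fun {K'} _ _ {N' n y'} hy' hn' hn0 {S} hS => ?_,
    fun {K L} _ _ _ _ {N n y} hy hn hn0 φ ψ hψ hpf c hc hc1 A hA hps => ?_⟩
  · obtain ⟨C, hC, h⟩ := decomp_one hy' hn' hn0 hS
    refine ⟨C, hC, fun K _ _ N y d hy hn hd L _ _ φ ψ hψ hfin c hc A hA hps => ?_⟩
    have h1 := h K N y d hy hn hd L φ ψ hψ hfin c hc A hA hps
    refine ⟨h1, fun hint hlt P hP => ?_⟩
    obtain ⟨z, hz⟩ := hint P hP
    have h2 := hA.1 P hP
    have h3 := h1 P hP
    rw [hz] at h2 h3 ⊢
    have h4 : ((z : ℤ) : ℝ) < 1 := by
      push_cast at h3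
      linarith
    have h5 : z < 1 := by exact_mod_cast h4
    have h6 : 0 ≤ z := by exact_mod_cast h2
    have h7 : z = 0 := by omega
    rw [h7, Int.cast_zero]
  · exact decomp_self hy hn hn0 φ ψ hψ hpf hc hc1 hA hps
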