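import Pool.Agent.R887.CorJ

/-!
The conjecture of Campana and Peternell for the projective manifolds `X` which are dominated by
multi-valued rational maps of large degree from a fixed variety, and a bound for the Iitaka
dimension and the positive products of all divisors `A` such that `K_X - A` is pseudo-effective by
the degrees of a single such map.
-/

set_option autoImplicit false

open FF Pool.Agent.W602.GT Pool.Agent.Y172 Pool.Agent.R887

/-- Let `X'` be a normal projective variety of dimension `n ≥ 1`, with generic point `y'`, and `S` a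
finite set of prime divisors of `X'`. There is a constant `C`, which depends only on `X'` and `S`,
such that the following holds for all projective varieties `X` of dimension `n` with canonical
singularities (for instance projective manifolds), with generic point `y`, and all `ℚ`-divisors `A`
on `X` such that `K_X - A` is pseudo-effective.

We consider multi-valued rational maps `X' ← X'' → X`: varieties `X''` with a generically finite
rational map `p` to `X'`, unramified over the prime divisors of `X'` which are not in `S`, and a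
dominant rational map `f` to `X`. (`X'' = X'` and `p = id` is the case of a rational map.)

(1) If the intersection number `(f^* H)^(n-j) (p^* H')^j`, `H` and `H'` being hyperplane sections of
`X` and `X'`, is at most `c deg f`, then the rational maps given by `j + 1` sections of `m A` and
`n - j` pencils of hyperplane sections of `X` have degree at most `c (C m)^j`.

(2) Let `k < n`, and suppose that for all `ε > 0` there is such a multi-valued map for which
`(f^* H)^(n-k-1) (p^* H')^(k+1)` is at most `ε deg f`. Then the Iitaka dimension of `A` is at most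
`k`. If the Kodaira dimension of `X` is at least `k`, it is at least the Iitaka dimension of `A`. -/
theorem Pool.Agent.Results.MP_370cf3_ag.OneMapIitaka.result
    {K' : Type} [Field K'] [Algebra ℂ K'] {N' n : ℕ} {y' : Fin (N' + 1) → K'}
    (hy' : NormalModel y') (hn' : Algebra.trdeg ℂ K' = n) (hn0 : 0 < n) {S : Set (Place ℂ K')}
    (hS : S.Finite) :
    ∃ C : ℕ, 0 < C ∧ ∀ (K : Type) [Field K] [Algebra ℂ K] (N : ℕ)
      (y : Fin (N + 1) → K), NormalModel y → Algebra.trdeg ℂ K = n → Canonical y n →
      ∀ A : Place ℂ K → ℚ, PseudoEffective y n (-A) →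
      (∀ (L : Type) [Field L] [Algebra ℂ L] (φ : K →ₐ[ℂ] L) (ψ : K' →ₐ[ℂ] L),
        FiniteDimensional ψ.fieldRange L → UnramifiedOutside ψ y' S →
        ∀ (j : ℕ) (c : ℝ), j ≤ n → MultiDegreeLe φ ψ y y' (n - j) j c →
        ∀ m : ℕ, 1 ≤ m → ∀ u : Fin (n - j) → K, (∀ a, IsPencil y (u a)) →
        ∀ g : Fin (j + 1) → K, (∀ i, IsFunctionSection y (m • A) (g i)) → g 0 ≠ 0 →
          (degreeOver u (fun i : Fin j => g i.succ / g 0) : ℝ) ≤ c * (C * m) ^ j) ∧
      (∀ k : ℕ, k < n → (∀ ε : ℝ, 0 < ε → ∃ (L : Type) (_ : Field L) (_ : Algebra ℂ L)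
        (φ : K →ₐ[ℂ] L) (ψ : K' →ₐ[ℂ] L), FiniteDimensional ψ.fieldRange L ∧
          UnramifiedOutside ψ y' S ∧ MultiDegreeLe φ ψ y y' (n - (k + 1)) (k + 1) ε) →
        (∀ l, IitakaGe y A l → l ≤ k) ∧
          (KodairaGe y n k → ∀ l, IitakaGe y A l → KodairaGe y n l)) := by
  obtain ⟨C, hC, h⟩ := one_map_lc hy' hn' hn0 hS
  refine ⟨C, hC, fun K _ _ N y hy hn hcan A hA => ?_⟩
  have hA' : PseudoEffective y n (0 - A) := by rwa [zero_sub]
  refine ⟨fun L _ _ φ ψ hψ hun j c hj hc m hm u hu g hg hg0 => ?_, fun k hk hmap => ?_⟩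
  · obtain ⟨hc0, hpp⟩ := h hy hn hcan.lc φ ψ hψ hun (hcan.multi hy hy' hn hn' φ ψ hψ S) j c hj hc
    have h1 := iitaka_deg hy hn hj (by positivity) hpp hA' hm hu hg hg0
    rw [mul_pow, ← mul_assoc]
    exact h1
  · have hnum : NumDimLt y n 0 (k + 1) := by
      refine numdim2 hy hy' hn hn' (by omega) hcan.lc hk hS fun ε hε => ?_
      obtain ⟨L, _, _, φ, ψ, h1, h2, h3⟩ := hmap ε hε
      exact ⟨L, _, _, φ, ψ, h1, h2, hcan.multi hy hy' hn hn' φ ψ h1 S, h3⟩
    have hle : ∀ l, IitakaGe y A l → l ≤ k := by
      intro l hl
      by_contra hc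
      exact iitaka_lt hy hn hk hnum hA' (hl.mono (by omega))
    exact ⟨hle, fun hkod l hl => hkod.mono (hle l hl)⟩
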